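import Pool.Agent.H697.Forest.Order

/-!
# Bipartite graphs without an induced forest have many closed walks of length four
-/

set_option linter.unusedSectionVars false

namespace Pool.Agent.H697.Forest

open Finset

/-- The bipartite graph on `ℕ ⊕ ℕ` with the edges `F` (a set of pairs: left vertex, right
vertex). -/
def bip (F : Set (ℕ × ℕ)) : SimpleGraph (ℕ ⊕ ℕ) where
  Adj x y := match x, y with
    | Sum.inl u, Sum.inr v => (u, v) ∈ F
    | Sum.inr v, Sum.inl u => (u, v) ∈ F
    | _, _ => False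
  symm := ⟨fun x y h => by cases x <;> cases y <;> exact h⟩
  loopless := ⟨fun x h => by cases x <;> exact h⟩

/-- Indicator of the edges. -/
noncomputable def chi (F : Finset (ℕ × ℕ)) (u v : ℕ) : ℝ := if (u, v) ∈ F then 1 else 0

theorem chi_nonneg (F : Finset (ℕ × ℕ)) (u v : ℕ) : 0 ≤ chi F u v := by
  unfold chi
  split_ifs <;> norm_num

/-- The number of closed walks of length four in `F`, starting on the left side. -/
noncomputable def Q (F : Finset (ℕ × ℕ)) : ℝ :=
  ∑ u ∈ F.image Prod.fst, ∑ u' ∈ F.image Prod.fst, ∑ v ∈ F.image Prod.snd,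
    ∑ v' ∈ F.image Prod.snd, chi F u v * chi F u' v * (chi F u v' * chi F u' v')

/-- The bipartite graph between `X` and `Y`. -/
def sub (F : Finset (ℕ × ℕ)) (X Y : Finset ℕ) : SimpleGraph (X ⊕ Y) :=
  (bip F).comap (Sum.map Subtype.val Subtype.val)

instance (F : Finset (ℕ × ℕ)) (X Y : Finset ℕ) : DecidableRel (sub F X Y).Adj := fun x y =>
  match x, y with
  | Sum.inl u, Sum.inr v => inferInstanceAs (Decidable ((u.1, v.1) ∈ (F : Set (ℕ × ℕ))))
  | Sum.inr v, Sum.inl u => inferInstanceAs (Decidable ((u.1, v.1) ∈ (F : Set (ℕ × ℕ))))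
  | Sum.inl _, Sum.inl _ => isFalse (fun h => h)
  | Sum.inr _, Sum.inr _ => isFalse (fun h => h)

theorem sub_lr (F : Finset (ℕ × ℕ)) (X Y : Finset ℕ) (u : X) (v : Y) :
    (sub F X Y).Adj (Sum.inl u) (Sum.inr v) ↔ (u.1, v.1) ∈ F := by
  simp [sub, bip]

theorem sub_rl (F : Finset (ℕ × ℕ)) (X Y : Finset ℕ) (u : X) (v : Y) :
    (sub F X Y).Adj (Sum.inr v) (Sum.inl u) ↔ (u.1, v.1) ∈ F := by
  simp [sub, bip]

theorem sub_ll (F : Finset (ℕ × ℕ)) (X Y : Finset ℕ) (u u' : X) :
    ¬ (sub F X Y).Adj (Sum.inl u) (Sum.inl u') := by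
  simp [sub, bip]

theorem sub_rr (F : Finset (ℕ × ℕ)) (X Y : Finset ℕ) (v v' : Y) :
    ¬ (sub F X Y).Adj (Sum.inr v) (Sum.inr v') := by
  simp [sub, bip]

/-- The weights. -/
noncomputable def wt (X Y : Finset ℕ) (a b : ℝ) : X ⊕ Y → ℝ
  | Sum.inl _ => b
  | Sum.inr _ => a

theorem degree_inl (F : Finset (ℕ × ℕ)) (X Y : Finset ℕ) (u : X) :
    (sub F X Y).degree (Sum.inl u) = (Y.filter fun v => (u.1, v) ∈ F).card := by
  rw [← SimpleGraph.card_neighborFinset_eq_degree]
  symm
  refine Finset.card_bij' (i := fun v hv => Sum.inr ⟨v, (Finset.mem_filter.1 hv).1⟩)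
    (j := fun z _ => match z with | Sum.inl _ => 0 | Sum.inr v => v.1) ?_ ?_ ?_ ?_
  · intro v hv
    simp only [SimpleGraph.mem_neighborFinset, sub_lr]
    exact (Finset.mem_filter.1 hv).2
  · rintro (z | z) hz
    · simp only [SimpleGraph.mem_neighborFinset] at hz
      exact absurd hz (sub_ll F X Y _ _)
    · simp only [SimpleGraph.mem_neighborFinset, sub_lr] at hz
      exact Finset.mem_filter.2 ⟨z.2, hz⟩
  · intro v hv
    rfl
  · rintro (z | z) hz
    · simp only [SimpleGraph.mem_neighborFinset] at hz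
      exact absurd hz (sub_ll F X Y _ _)
    · rfl

theorem degree_inr (F : Finset (ℕ × ℕ)) (X Y : Finset ℕ) (v : Y) :
    (sub F X Y).degree (Sum.inr v) = (X.filter fun u => (u, v.1) ∈ F).card := by
  rw [← SimpleGraph.card_neighborFinset_eq_degree]
  symm
  refine Finset.card_bij' (i := fun u hu => Sum.inl ⟨u, (Finset.mem_filter.1 hu).1⟩)
    (j := fun z _ => match z with | Sum.inl v => v.1 | Sum.inr _ => 0) ?_ ?_ ?_ ?_
  · intro v hv
    simp only [SimpleGraph.mem_neighborFinset, sub_rl]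
    exact (Finset.mem_filter.1 hv).2
  · rintro (z | z) hz
    · simp only [SimpleGraph.mem_neighborFinset, sub_rl] at hz
      exact Finset.mem_filter.2 ⟨z.2, hz⟩
    · simp only [SimpleGraph.mem_neighborFinset] at hz
      exact absurd hz (sub_rr F X Y _ _)
  · intro v hv
    rfl
  · rintro (z | z) hz
    · rfl
    · simp only [SimpleGraph.mem_neighborFinset] at hz
      exact absurd hz (sub_rr F X Y _ _)

theorem P_lr (F : Finset (ℕ × ℕ)) (X Y : Finset ℕ) (D : ℝ) (u : X) (v : Y) :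
    P (sub F X Y) D (Sum.inl u) (Sum.inr v) = chi F u v / D := by
  unfold P chi
  simp only [sub_lr]
  split_ifs <;> simp

theorem P_rl (F : Finset (ℕ × ℕ)) (X Y : Finset ℕ) (D : ℝ) (u : X) (v : Y) :
    P (sub F X Y) D (Sum.inr v) (Sum.inl u) = chi F u v / D := by
  unfold P chi
  simp only [sub_rl]
  split_ifs <;> simp

theorem P_ll (F : Finset (ℕ × ℕ)) (X Y : Finset ℕ) (D : ℝ) (u u' : X) :
    P (sub F X Y) D (Sum.inl u) (Sum.inl u') = 0 := by
  unfold P
  rw [if_neg (sub_ll F X Y u u')]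

theorem P_rr (F : Finset (ℕ × ℕ)) (X Y : Finset ℕ) (D : ℝ) (v v' : Y) :
    P (sub F X Y) D (Sum.inr v) (Sum.inr v') = 0 := by
  unfold P
  rw [if_neg (sub_rr F X Y v v')]

theorem sum_mono4 (F : Finset (ℕ × ℕ)) (X Y : Finset ℕ) (hX : X ⊆ F.image Prod.fst)
    (hY : Y ⊆ F.image Prod.snd) :
    ∑ u ∈ X, ∑ u' ∈ X, ∑ v ∈ Y, ∑ v' ∈ Y, chi F u v * chi F u' v * (chi F u v' * chi F u' v') ≤
      Q F := by
  have hn : ∀ u u' v v', 0 ≤ chi F u v * chi F u' v * (chi F u v' * chi F u' v') := by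
    intro u u' v v'
    have := chi_nonneg F
    exact mul_nonneg (mul_nonneg (this _ _) (this _ _)) (mul_nonneg (this _ _) (this _ _))
  unfold Q
  refine (Finset.sum_le_sum fun u _ => Finset.sum_le_sum fun u' _ => Finset.sum_le_sum fun v _ =>
    Finset.sum_le_sum_of_subset_of_nonneg hY fun _ _ _ => hn _ _ _ _).trans ?_
  refine (Finset.sum_le_sum fun u _ => Finset.sum_le_sum fun u' _ =>
    Finset.sum_le_sum_of_subset_of_nonneg hY fun _ _ _ =>
      Finset.sum_nonneg fun _ _ => hn _ _ _ _).trans ?_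
  refine (Finset.sum_le_sum fun u _ =>
    Finset.sum_le_sum_of_subset_of_nonneg hX fun _ _ _ =>
      Finset.sum_nonneg fun _ _ => Finset.sum_nonneg fun _ _ => hn _ _ _ _).trans ?_
  exact Finset.sum_le_sum_of_subset_of_nonneg hX fun _ _ _ =>
      Finset.sum_nonneg fun _ _ => Finset.sum_nonneg fun _ _ =>
        Finset.sum_nonneg fun _ _ => hn _ _ _ _

theorem frob_le (F : Finset (ℕ × ℕ)) (X Y : Finset ℕ) (hX : X ⊆ F.image Prod.fst)
    (hY : Y ⊆ F.image Prod.snd) (D : ℝ) :
    frob (sub F X Y) D 2 ≤ 2 * Q F / D ^ 4 := by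
  classical
  have e1 : ∀ u u' : X, (P (sub F X Y) D ^ 2) (Sum.inl u') (Sum.inl u) =
      (∑ v ∈ Y, chi F u' v * chi F u v) / D ^ 2 := by
    intro u u'
    rw [sq, Matrix.mul_apply, Fintype.sum_sum_type]
    simp only [P_ll, P_lr, P_rl, zero_mul, Finset.sum_const_zero, zero_add]
    rw [Finset.sum_div, ← Finset.sum_coe_sort Y]
    exact Finset.sum_congr rfl fun v _ => by ring
  have e2 : ∀ v v' : Y, (P (sub F X Y) D ^ 2) (Sum.inr v') (Sum.inr v) =
      (∑ u ∈ X, chi F u v' * chi F u v) / D ^ 2 := by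
    intro v v'
    rw [sq, Matrix.mul_apply, Fintype.sum_sum_type]
    simp only [P_rr, P_lr, P_rl, zero_mul, Finset.sum_const_zero, add_zero]
    rw [Finset.sum_div, ← Finset.sum_coe_sort X]
    exact Finset.sum_congr rfl fun v _ => by ring
  have e3 : ∀ (u : X) (v : Y), (P (sub F X Y) D ^ 2) (Sum.inl u) (Sum.inr v) = 0 := by
    intro u v
    rw [sq, Matrix.mul_apply, Fintype.sum_sum_type]
    simp [P_ll, P_rr]
  have e4 : ∀ (u : X) (v : Y), (P (sub F X Y) D ^ 2) (Sum.inr v) (Sum.inl u) = 0 := by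
    intro u v
    rw [sq, Matrix.mul_apply, Fintype.sum_sum_type]
    simp [P_ll, P_rr]
  have hsum : frob (sub F X Y) D 2 =
      (∑ u ∈ X, ∑ u' ∈ X, ∑ v ∈ Y, ∑ v' ∈ Y,
        chi F u v * chi F u' v * (chi F u v' * chi F u' v')) / D ^ 4 +
      (∑ v ∈ Y, ∑ v' ∈ Y, ∑ u ∈ X, ∑ u' ∈ X,
        chi F u v * chi F u' v * (chi F u v' * chi F u' v')) / D ^ 4 := by
    unfold frob colSq
    rw [Fintype.sum_sum_type]
    simp only [Fintype.sum_sum_type, e1, e2, e3, e4]
    simp only [ne_eq, OfNat.ofNat_ne_zero, not_false_eq_true, zero_pow, Finset.sum_const_zero,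
      add_zero, zero_add]
    congr 1
    · rw [← Finset.sum_coe_sort X, Finset.sum_div]
      refine Finset.sum_congr rfl fun u _ => ?_
      rw [← Finset.sum_coe_sort X, Finset.sum_div]
      refine Finset.sum_congr rfl fun u' _ => ?_
      rw [div_pow, ← pow_mul, sq (∑ v ∈ Y, _), Finset.sum_mul_sum]
      congr 1
      refine Finset.sum_congr rfl fun v _ => Finset.sum_congr rfl fun v' _ => ?_
      ring
    · rw [← Finset.sum_coe_sort Y, Finset.sum_div]
      refine Finset.sum_congr rfl fun v _ => ?_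
      rw [← Finset.sum_coe_sort Y, Finset.sum_div]
      refine Finset.sum_congr rfl fun v' _ => ?_
      rw [div_pow, ← pow_mul, sq (∑ u ∈ X, _), Finset.sum_mul_sum]
      congr 1
      refine Finset.sum_congr rfl fun u _ => Finset.sum_congr rfl fun u' _ => ?_
      ring
  have hswap : ∑ v ∈ Y, ∑ v' ∈ Y, ∑ u ∈ X, ∑ u' ∈ X,
        chi F u v * chi F u' v * (chi F u v' * chi F u' v') =
      ∑ u ∈ X, ∑ u' ∈ X, ∑ v ∈ Y, ∑ v' ∈ Y,
        chi F u v * chi F u' v * (chi F u v' * chi F u' v') := by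
    calc ∑ v ∈ Y, ∑ v' ∈ Y, ∑ u ∈ X, ∑ u' ∈ X,
          chi F u v * chi F u' v * (chi F u v' * chi F u' v')
        = ∑ v ∈ Y, ∑ u ∈ X, ∑ v' ∈ Y, ∑ u' ∈ X,
          chi F u v * chi F u' v * (chi F u v' * chi F u' v') :=
          Finset.sum_congr rfl fun _ _ => Finset.sum_comm
      _ = ∑ u ∈ X, ∑ v ∈ Y, ∑ v' ∈ Y, ∑ u' ∈ X,
          chi F u v * chi F u' v * (chi F u v' * chi F u' v') := Finset.sum_comm
      _ = ∑ u ∈ X, ∑ v ∈ Y, ∑ u' ∈ X, ∑ v' ∈ Y,
          chi F u v * chi F u' v * (chi F u v' * chi F u' v') :=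
          Finset.sum_congr rfl fun _ _ => Finset.sum_congr rfl fun _ _ => Finset.sum_comm
      _ = ∑ u ∈ X, ∑ u' ∈ X, ∑ v ∈ Y, ∑ v' ∈ Y,
          chi F u v * chi F u' v * (chi F u v' * chi F u' v') :=
          Finset.sum_congr rfl fun _ _ => Finset.sum_comm
  rw [hsum, hswap, ← add_div]
  have h1 := sum_mono4 F X Y hX hY
  have h4 : (0 : ℝ) ≤ D ^ 4 := by positivity
  gcongr
  linarith

/-- Cleaning: a nonempty sub-bipartite graph with large minimum degrees. -/
theorem exists_clean (F : Finset (ℕ × ℕ)) (s t : ℝ)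
    (hs : s * (F.image Prod.fst).card ≤ F.card / 4)
    (ht : t * (F.image Prod.snd).card ≤ F.card / 4) (hs0 : 0 ≤ s) (ht0 : 0 ≤ t) :
    ∃ X ⊆ F.image Prod.fst, ∃ Y ⊆ F.image Prod.snd,
      (F.card : ℝ) / 2 ≤ (F.filter fun e => e.1 ∈ X ∧ e.2 ∈ Y).card ∧
      (∀ u ∈ X, s ≤ (Y.filter fun v => (u, v) ∈ F).card) ∧
      (∀ v ∈ Y, t ≤ (X.filter fun u => (u, v) ∈ F).card) := by
  classical
  let f : Finset ℕ × Finset ℕ → ℝ := fun p =>
    (F.filter fun e => e.1 ∈ p.1 ∧ e.2 ∈ p.2).card - s * p.1.card - t * p.2.card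
  obtain ⟨⟨X, Y⟩, hXY, hmax⟩ := Finset.exists_max_image
    ((F.image Prod.fst).powerset ×ˢ (F.image Prod.snd).powerset) f
    ⟨(∅, ∅), by simp⟩
  simp only [Finset.mem_product, Finset.mem_powerset] at hXY hmax
  refine ⟨X, hXY.1, Y, hXY.2, ?_, ?_, ?_⟩
  · have h1 := hmax (F.image Prod.fst, F.image Prod.snd) ⟨Finset.Subset.rfl, Finset.Subset.rfl⟩
    simp only [f] at h1
    have h2 : (F.filter fun e => e.1 ∈ F.image Prod.fst ∧ e.2 ∈ F.image Prod.snd) = F := by
      rw [Finset.filter_eq_self]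
      intro e he
      exact ⟨Finset.mem_image_of_mem _ he, Finset.mem_image_of_mem _ he⟩
    rw [h2] at h1
    have h3 : 0 ≤ s * X.card := by positivity
    have h4 : 0 ≤ t * Y.card := by positivity
    linarith
  · intro u hu
    have h1 := hmax (X.erase u, Y) ⟨(Finset.erase_subset _ _).trans hXY.1, hXY.2⟩
    simp only [f] at h1
    have h2 : (F.filter fun e => e.1 ∈ X ∧ e.2 ∈ Y).card =
        (F.filter fun e => e.1 ∈ X.erase u ∧ e.2 ∈ Y).card +
          (Y.filter fun v => (u, v) ∈ F).card := by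
      rw [← Finset.card_image_of_injective (Y.filter fun v => (u, v) ∈ F)
        (f := fun v => (u, v)) (fun a b h => by simpa using h), ← Finset.card_union_of_disjoint]
      · congr 1
        ext ⟨a, b⟩
        simp only [Finset.mem_filter, Finset.mem_union, Finset.mem_erase, Finset.mem_image,
          Prod.mk.injEq]
        constructor
        · rintro ⟨h1, h2, h3⟩
          by_cases hau : a = u
          · exact Or.inr ⟨b, ⟨h3, hau ▸ h1⟩, hau.symm, rfl⟩
          · exact Or.inl ⟨h1, ⟨hau, h2⟩, h3⟩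
        · rintro (⟨h1, ⟨-, h2⟩, h3⟩ | ⟨v, ⟨h1, h2⟩, rfl, rfl⟩)
          · exact ⟨h1, h2, h3⟩
          · exact ⟨h2, hu, h1⟩
      · rw [Finset.disjoint_left]
        rintro ⟨a, b⟩ h1 h2
        simp only [Finset.mem_filter, Finset.mem_erase, Finset.mem_image, Prod.mk.injEq] at h1 h2
        obtain ⟨v, -, h3, -⟩ := h2
        exact h1.2.1.1 h3.symm
    have h3 : ((X.erase u).card : ℝ) = X.card - 1 := by
      rw [Finset.card_erase_of_mem hu, Nat.cast_sub (Finset.card_pos.2 ⟨u, hu⟩)]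
      simp
    rw [h2, h3] at h1
    push_cast at h1
    linarith
  · intro v hv
    have h1 := hmax (X, Y.erase v) ⟨hXY.1, (Finset.erase_subset _ _).trans hXY.2⟩
    simp only [f] at h1
    have h2 : (F.filter fun e => e.1 ∈ X ∧ e.2 ∈ Y).card =
        (F.filter fun e => e.1 ∈ X ∧ e.2 ∈ Y.erase v).card +
          (X.filter fun u => (u, v) ∈ F).card := by
      rw [← Finset.card_image_of_injective (X.filter fun u => (u, v) ∈ F)
        (f := fun u => (u, v)) (fun a b h => by simpa using h), ← Finset.card_union_of_disjoint]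
      · congr 1
        ext ⟨a, b⟩
        simp only [Finset.mem_filter, Finset.mem_union, Finset.mem_erase, Finset.mem_image,
          Prod.mk.injEq]
        constructor
        · rintro ⟨h1, h2, h3⟩
          by_cases hbv : b = v
          · exact Or.inr ⟨a, ⟨h2, hbv ▸ h1⟩, rfl, hbv.symm⟩
          · exact Or.inl ⟨h1, h2, ⟨hbv, h3⟩⟩
        · rintro (⟨h1, h2, ⟨-, h3⟩⟩ | ⟨v, ⟨h1, h2⟩, rfl, rfl⟩)
          · exact ⟨h1, h2, h3⟩
          · exact ⟨h2, h1, hv⟩
      · rw [Finset.disjoint_left]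
        rintro ⟨a, b⟩ h1 h2
        simp only [Finset.mem_filter, Finset.mem_erase, Finset.mem_image, Prod.mk.injEq] at h1 h2
        obtain ⟨v, -, -, h3⟩ := h2
        exact h1.2.2.1 h3.symm
    have h3 : ((Y.erase v).card : ℝ) = Y.card - 1 := by
      rw [Finset.card_erase_of_mem hv, Nat.cast_sub (Finset.card_pos.2 ⟨v, hv⟩)]
      simp
    rw [h2, h3] at h1
    push_cast at h1
    linarith

/-- **Structure lemma.** A bipartite graph with degrees at most `a`, `b` and with average degrees at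
least `a / K`, `b / K` which has few closed walks of length four contains the forest `H` as an
induced subgraph. -/
theorem exists_forest_bip {α : Type} [Fintype α] (H : SimpleGraph α) (hH : H.IsAcyclic)
    (F : Finset (ℕ × ℕ)) (hF : F.Nonempty) {a b K κ : ℝ} (ha : 0 < a) (hb : 0 < b) (hK : 0 < K)
    (hdu : ∀ u, ((F.filter fun e => e.1 = u).card : ℝ) ≤ a)
    (hdv : ∀ v, ((F.filter fun e => e.2 = v).card : ℝ) ≤ b)
    (hu : a * (F.image Prod.fst).card ≤ K * F.card)
    (hv : b * (F.image Prod.snd).card ≤ K * F.card)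
    (hκ : 0 ≤ κ) (hQ : Q F ≤ κ / 2 * (F.card * a * b))
    (hsmall : (Fintype.card α + 1) ^ 2 * (√κ + κ * (4 * K)) < (1 / (4 * K)) ^ Fintype.card α) :
    ∃ f : α → ℕ ⊕ ℕ, Function.Injective f ∧ (∀ x y, (bip F).Adj (f x) (f y) ↔ H.Adj x y) ∧
      (∀ x u, f x = Sum.inl u → u ∈ F.image Prod.fst) ∧
      (∀ x v, f x = Sum.inr v → v ∈ F.image Prod.snd) := by
  classical
  have hFpos : (0 : ℝ) < F.card := by exact_mod_cast Finset.card_pos.2 hF
  obtain ⟨X, hX, Y, hY, hcard, hdegX, hdegY⟩ := exists_clean F (a / (4 * K)) (b / (4 * K))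
    (by rw [div_mul_eq_mul_div, div_le_iff₀ (by positivity)]; linarith)
    (by rw [div_mul_eq_mul_div, div_le_iff₀ (by positivity)]; linarith)
    (by positivity) (by positivity)
  set F' := F.filter fun e => e.1 ∈ X ∧ e.2 ∈ Y with hF'
  have hF'pos : (0 : ℝ) < F'.card := by linarith
  obtain ⟨e0, he0⟩ := Finset.card_pos.1 (by exact_mod_cast hF'pos : 0 < F'.card)
  have he0' := Finset.mem_filter.1 he0
  have hne : Nonempty (X ⊕ Y) := ⟨Sum.inl ⟨e0.1, he0'.2.1⟩⟩
  have hdX : ∀ u, ((Y.filter fun v => (u, v) ∈ F).card : ℝ) ≤ a := by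
    intro u
    refine le_trans ?_ (hdu u)
    norm_cast
    refine Finset.card_le_card_of_injOn (fun v => (u, v)) ?_ (fun x _ y _ h => by simpa using h)
    intro v hv
    exact Finset.mem_coe.2 (Finset.mem_filter.2 ⟨(Finset.mem_filter.1 (Finset.mem_coe.1 hv)).2,
      rfl⟩)
  have hdY : ∀ v, ((X.filter fun u => (u, v) ∈ F).card : ℝ) ≤ b := by
    intro v
    refine le_trans ?_ (hdv v)
    norm_cast
    refine Finset.card_le_card_of_injOn (fun u => (u, v)) ?_ (fun x _ y _ h => by simpa using h)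
    intro u hu
    exact Finset.mem_coe.2 (Finset.mem_filter.2 ⟨(Finset.mem_filter.1 (Finset.mem_coe.1 hu)).2,
      rfl⟩)
  have hD2 : (√(a * b)) ^ 2 = a * b := Real.sq_sqrt (by positivity)
  have hD4 : (√(a * b)) ^ 4 = (a * b) ^ 2 := by
    rw [show (4 : ℕ) = 2 * 2 from rfl, pow_mul, hD2]
  have hWG : WG (sub F X Y) (wt X Y a b) (√(a * b)) (1 / (4 * K)) := by
    refine ⟨by positivity, by positivity, ?_, ?_, ?_, ?_⟩
    · rintro (x | x) <;> simpa [wt]
    · rintro (x | x) (y | y) hxy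
      · exact absurd hxy (sub_ll F X Y x y)
      · rw [hD2]; simp [wt, mul_comm]
      · rw [hD2]; simp [wt]
      · exact absurd hxy (sub_rr F X Y x y)
    · rintro (x | x)
      · rw [hD2, degree_inl]
        simp only [wt]
        exact mul_le_mul_of_nonneg_right (hdX x) hb.le
      · rw [hD2, degree_inr]
        simp only [wt]
        rw [mul_comm a b]
        exact mul_le_mul_of_nonneg_right (hdY x) ha.le
    · rintro (x | x)
      · rw [hD2, degree_inl]
        simp only [wt]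
        have := hdegX x x.2
        calc 1 / (4 * K) * (a * b) = a / (4 * K) * b := by ring
          _ ≤ _ := mul_le_mul_of_nonneg_right this hb.le
      · rw [hD2, degree_inr]
        simp only [wt]
        have := hdegY x x.2
        calc 1 / (4 * K) * (a * b) = b / (4 * K) * a := by ring
          _ ≤ _ := mul_le_mul_of_nonneg_right this ha.le
  have hsumw : ∑ x, 1 / wt X Y a b x = X.card / b + Y.card / a := by
    rw [Fintype.sum_sum_type]
    simp [wt, div_eq_mul_inv]
  have hXc : (F'.card : ℝ) ≤ a * X.card := by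
    have h1 : (F'.card : ℝ) ≤ ∑ u ∈ X, ((F.filter fun e => e.1 = u).card : ℝ) := by
      norm_cast
      rw [Finset.card_eq_sum_card_fiberwise (f := Prod.fst) (t := X)
        (fun e he => (Finset.mem_filter.1 he).2.1)]
      refine Finset.sum_le_sum fun u _ => Finset.card_le_card ?_
      intro e he
      simp only [hF', Finset.mem_filter] at he ⊢
      exact ⟨he.1.1, he.2⟩
    refine h1.trans ((Finset.sum_le_sum fun u _ => hdu u).trans ?_)
    rw [Finset.sum_const, nsmul_eq_mul, mul_comm]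
  have hYc : (F'.card : ℝ) ≤ b * Y.card := by
    have h1 : (F'.card : ℝ) ≤ ∑ v ∈ Y, ((F.filter fun e => e.2 = v).card : ℝ) := by
      norm_cast
      rw [Finset.card_eq_sum_card_fiberwise (f := Prod.snd) (t := Y)
        (fun e he => (Finset.mem_filter.1 he).2.2)]
      refine Finset.sum_le_sum fun u _ => Finset.card_le_card ?_
      intro e he
      simp only [hF', Finset.mem_filter] at he ⊢
      exact ⟨he.1.1, he.2⟩
    refine h1.trans ((Finset.sum_le_sum fun u _ => hdv u).trans ?_)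
    rw [Finset.sum_const, nsmul_eq_mul, mul_comm]
  have hfrob : frob (sub F X Y) (√(a * b)) 2 ≤ κ * ∑ x, 1 / wt X Y a b x := by
    refine (frob_le F X Y hX hY _).trans ?_
    rw [hD4, hsumw]
    have h1 : (F.card : ℝ) / (a * b) ≤ X.card / b + Y.card / a := by
      rw [div_add_div _ _ hb.ne' ha.ne', mul_comm b a]
      refine div_le_div_of_nonneg_right ?_ (by positivity)
      nlinarith
    calc 2 * Q F / (a * b) ^ 2 ≤ 2 * (κ / 2 * (F.card * a * b)) / (a * b) ^ 2 := by gcongr
      _ = κ * (F.card / (a * b)) := by field_simp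
      _ ≤ _ := by gcongr
  obtain ⟨g⟩ := exists_forest H hH hWG hκ hfrob (by
    rw [one_div, div_inv_eq_mul, ← one_div]
    exact hsmall)
  refine ⟨fun x => Sum.map Subtype.val Subtype.val (g x), ?_, ?_, ?_, ?_⟩
  · intro x y hxy
    exact g.injective (Sum.map_injective.2 ⟨Subtype.val_injective, Subtype.val_injective⟩ hxy)
  · intro x y
    exact g.map_adj_iff
  · intro x u hx
    cases hg : g x with
    | inl z =>
      simp only [hg, Sum.map_inl, Sum.inl.injEq] at hx
      rw [← hx]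
      exact hX z.2
    | inr z => simp [hg] at hx
  · intro x u hx
    cases hg : g x with
    | inl z => simp [hg] at hx
    | inr z =>
      simp only [hg, Sum.map_inr, Sum.inr.injEq] at hx
      rw [← hx]
      exact hY z.2

end Pool.Agent.H697.Forest
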