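import Mathlib

/-!
# Induced trees in graphs with few closed walks of length four

`G` is a finite graph with positive vertex weights `w` such that `w x * w y = D ^ 2` for adjacent
`x`, `y`, and `c * D ^ 2 ≤ deg x * w x ≤ D ^ 2`.  (Regular graphs: `w = D = d`, `c = 1`; almost
biregular bipartite graphs with degrees at most `a`, `b`: weights `b` on the side of degree at most
`a`, weights `a` on the other side.)  If the number of closed walks of length four is small, a random
homomorphism of a tree is induced with positive probability.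
-/

namespace Pool.Agent.H697.Forest

open Finset

/-- Adjacency in the tree on `0, 1, 2, ...` in which `p j` is the parent of `j ≥ 1`. -/
def TAdj (p : ℕ → ℕ) (s t : ℕ) : Prop := (0 < t ∧ s = p t) ∨ (0 < s ∧ t = p s)

theorem TAdj.symm {p : ℕ → ℕ} {s t : ℕ} (h : TAdj p s t) : TAdj p t s := Or.symm h

variable {V : Type*} [Fintype V] [DecidableEq V]

/-- A weighted graph with almost constant weighted degrees. -/
structure WG (G : SimpleGraph V) [DecidableRel G.Adj] (w : V → ℝ) (D c : ℝ) : Prop where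
  D_pos : 0 < D
  c_pos : 0 < c
  w_pos : ∀ x, 0 < w x
  w_adj : ∀ x y, G.Adj x y → w x * w y = D ^ 2
  deg_le : ∀ x, (G.degree x : ℝ) * w x ≤ D ^ 2
  le_deg : ∀ x, c * D ^ 2 ≤ (G.degree x : ℝ) * w x

variable (G : SimpleGraph V) [DecidableRel G.Adj] (w : V → ℝ) (D c : ℝ)

/-- The normalised adjacency matrix. -/
noncomputable def P : Matrix V V ℝ := fun x y => if G.Adj x y then 1 / D else 0

omit [Fintype V] [DecidableEq V] in
theorem P_symm (x y : V) : P G D x y = P G D y x := by
  simp [P, G.adj_comm]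

theorem P_pow_symm (k : ℕ) (x y : V) : (P G D ^ k) x y = (P G D ^ k) y x := by
  have h : (P G D).transpose = P G D := by
    ext a b
    exact P_symm G D b a
  have h2 : (P G D ^ k).transpose = P G D ^ k := by
    rw [Matrix.transpose_pow, h]
  calc (P G D ^ k) x y = (P G D ^ k).transpose y x := rfl
    _ = (P G D ^ k) y x := by rw [h2]

variable {G w D c}

omit [Fintype V] [DecidableEq V] in
theorem P_nonneg (hD : 0 < D) (x y : V) : 0 ≤ P G D x y := by
  unfold P
  split_ifs <;> positivity

theorem P_pow_nonneg (hD : 0 < D) (k : ℕ) (x y : V) : 0 ≤ (P G D ^ k) x y := by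
  induction k generalizing x y with
  | zero =>
    rw [pow_zero, Matrix.one_apply]
    split_ifs <;> norm_num
  | succ k ih =>
    rw [pow_succ, Matrix.mul_apply]
    exact Finset.sum_nonneg fun z _ => mul_nonneg (ih x z) (P_nonneg hD z y)

omit [DecidableEq V] in
theorem sum_P_mul (g : V → ℝ) (x : V) :
    ∑ z, P G D x z * g z = (1 / D) * ∑ z ∈ G.neighborFinset x, g z := by
  simp only [P, ite_mul, zero_mul]
  rw [← Finset.sum_filter, Finset.mul_sum]
  refine Finset.sum_congr ?_ fun _ _ => rfl
  ext z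
  simp

omit [DecidableEq V] in
/-- The normalised adjacency matrix is a contraction. -/
theorem contraction (h : WG G w D c) (g : V → ℝ) :
    ∑ x, (∑ z, P G D x z * g z) ^ 2 ≤ ∑ z, g z ^ 2 := by
  have hD := h.D_pos
  have h1 : ∀ x, (∑ z, P G D x z * g z) ^ 2 ≤
      (1 / D ^ 2) * ∑ z, if G.Adj x z then (G.degree x : ℝ) * g z ^ 2 else 0 := by
    intro x
    rw [sum_P_mul, mul_pow, one_div_pow]
    refine mul_le_mul_of_nonneg_left ?_ (by positivity)
    calc (∑ z ∈ G.neighborFinset x, g z) ^ 2
        ≤ (G.neighborFinset x).card * ∑ z ∈ G.neighborFinset x, g z ^ 2 :=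
          sq_sum_le_card_mul_sum_sq
      _ = _ := by
        rw [SimpleGraph.card_neighborFinset_eq_degree, Finset.mul_sum, ← Finset.sum_filter]
        refine Finset.sum_congr ?_ fun _ _ => rfl
        ext z
        simp
  calc ∑ x, (∑ z, P G D x z * g z) ^ 2
      ≤ ∑ x, (1 / D ^ 2) * ∑ z, (if G.Adj x z then (G.degree x : ℝ) * g z ^ 2 else 0) :=
        Finset.sum_le_sum fun x _ => h1 x
    _ = ∑ z, (g z ^ 2 * (1 / D ^ 2)) * ∑ x, (if G.Adj x z then (G.degree x : ℝ) else 0) := by
        rw [← Finset.mul_sum, Finset.sum_comm, Finset.mul_sum]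
        refine Finset.sum_congr rfl fun z _ => ?_
        have h3 : ∑ x, (if G.Adj x z then (G.degree x : ℝ) * g z ^ 2 else 0) =
            g z ^ 2 * ∑ x, (if G.Adj x z then (G.degree x : ℝ) else 0) := by
          rw [Finset.mul_sum]
          refine Finset.sum_congr rfl fun x _ => ?_
          by_cases hxz : G.Adj x z
          · simp [hxz, mul_comm]
          · simp [hxz]
        rw [h3]
        ring
    _ ≤ ∑ z, (g z ^ 2 * (1 / D ^ 2)) * D ^ 2 := by
        refine Finset.sum_le_sum fun z _ => mul_le_mul_of_nonneg_left ?_ (by positivity)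
        calc ∑ x, (if G.Adj x z then (G.degree x : ℝ) else 0)
            ≤ ∑ x, (if G.Adj x z then w z else 0) := by
              refine Finset.sum_le_sum fun x _ => ?_
              split_ifs with hxz
              · have h2 := h.w_adj x z hxz
                have h3 := h.deg_le x
                have h4 := h.w_pos x
                rw [← h2, mul_comm] at h3
                exact le_of_mul_le_mul_left h3 h4
              · exact le_rfl
          _ = (G.degree z : ℝ) * w z := by
              rw [← Finset.sum_filter, Finset.sum_const, nsmul_eq_mul,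
                ← SimpleGraph.card_neighborFinset_eq_degree]
              congr 3
              ext x
              simp [G.adj_comm]
          _ ≤ D ^ 2 := h.deg_le z
    _ = ∑ z, g z ^ 2 := by
        refine Finset.sum_congr rfl fun z _ => ?_
        field_simp

/-- Squared length of a column of a power. -/
noncomputable def colSq (G : SimpleGraph V) [DecidableRel G.Adj] (D : ℝ) (k : ℕ) (y : V) : ℝ :=
  ∑ x, ((P G D ^ k) x y) ^ 2

theorem colSq_nonneg (k : ℕ) (y : V) : 0 ≤ colSq G D k y :=
  Finset.sum_nonneg fun _ _ => sq_nonneg _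

theorem colSq_succ (h : WG G w D c) (k : ℕ) (y : V) : colSq G D (k + 1) y ≤ colSq G D k y := by
  have := contraction h (fun z => (P G D ^ k) z y)
  unfold colSq
  simpa only [pow_succ', Matrix.mul_apply] using this

theorem colSq_anti (h : WG G w D c) (y : V) {a b : ℕ} (hab : a ≤ b) :
    colSq G D b y ≤ colSq G D a y := by
  induction hab with
  | refl => exact le_rfl
  | step _ ih => exact (colSq_succ h _ y).trans ih

/-- Squared Frobenius norm of a power. -/
noncomputable def frob (G : SimpleGraph V) [DecidableRel G.Adj] (D : ℝ) (k : ℕ) : ℝ :=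
  ∑ y, colSq G D k y

theorem frob_nonneg (k : ℕ) : 0 ≤ frob G D k := Finset.sum_nonneg fun _ _ => colSq_nonneg _ _

theorem frob_anti (h : WG G w D c) {a b : ℕ} (hab : a ≤ b) : frob G D b ≤ frob G D a :=
  Finset.sum_le_sum fun y _ => colSq_anti h y hab

theorem diag_add (a b : ℕ) (y : V) :
    (P G D ^ (a + b)) y y = ∑ x, (P G D ^ a) x y * (P G D ^ b) x y := by
  rw [pow_add, Matrix.mul_apply]
  exact Finset.sum_congr rfl fun x _ => by rw [P_pow_symm G D a y x]

theorem diag_le_sqrt (a b : ℕ) (y : V) :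
    (P G D ^ (a + b)) y y ≤ √(colSq G D a y) * √(colSq G D b y) := by
  rw [diag_add]
  exact Real.sum_mul_le_sqrt_mul_sqrt _ _ _

theorem sum_diag_le_sqrt (a b : ℕ) :
    ∑ y, (P G D ^ (a + b)) y y ≤ √(frob G D a) * √(frob G D b) := by
  have h1 : ∑ y, (P G D ^ (a + b)) y y =
      ∑ q : V × V, (P G D ^ a) q.2 q.1 * (P G D ^ b) q.2 q.1 := by
    rw [Fintype.sum_prod_type]
    exact Finset.sum_congr rfl fun y _ => diag_add a b y
  have h2 : ∀ k, frob G D k = ∑ q : V × V, ((P G D ^ k) q.2 q.1) ^ 2 := by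
    intro k
    rw [Fintype.sum_prod_type]
    rfl
  rw [h1, h2, h2]
  exact Real.sum_mul_le_sqrt_mul_sqrt _ _ _

theorem colSq_one (y : V) : colSq G D 1 y = (G.degree y : ℝ) / D ^ 2 := by
  unfold colSq
  simp only [pow_one, P, ite_pow, one_div, inv_pow, ne_eq, OfNat.ofNat_ne_zero, not_false_eq_true,
    zero_pow]
  rw [← Finset.sum_filter, Finset.sum_const, nsmul_eq_mul,
    ← SimpleGraph.card_neighborFinset_eq_degree, div_eq_mul_inv]
  congr 3
  ext x
  simp [G.adj_comm]

theorem sq_diag (y : V) : (P G D ^ 2) y y = (G.degree y : ℝ) / D ^ 2 := by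
  have h := diag_add (G := G) (D := D) 1 1 y
  rw [show (1 + 1 : ℕ) = 2 from rfl] at h
  rw [h, ← colSq_one]
  unfold colSq
  exact Finset.sum_congr rfl fun x _ => by rw [sq]

/-- For `j ≥ 2` the diagonal entries of the `j`-th power are at most those of the square. -/
theorem diag_le (h : WG G w D c) {j : ℕ} (hj : 2 ≤ j) (y : V) :
    (P G D ^ j) y y ≤ (G.degree y : ℝ) / D ^ 2 := by
  obtain ⟨i, rfl⟩ : ∃ i, j = (i + 1) + 1 := ⟨j - 2, by omega⟩
  refine (diag_le_sqrt _ _ _).trans ?_
  rw [← colSq_one]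
  calc √(colSq G D (i + 1) y) * √(colSq G D 1 y)
      ≤ √(colSq G D 1 y) * √(colSq G D 1 y) := by
        gcongr
        exact colSq_anti h y (by omega)
    _ = colSq G D 1 y := Real.mul_self_sqrt (colSq_nonneg _ _)

theorem frob_one_le (h : WG G w D c) : frob G D 1 ≤ ∑ x, 1 / w x := by
  have hD := h.D_pos
  refine Finset.sum_le_sum fun y _ => ?_
  rw [colSq_one]
  have h1 := h.deg_le y
  have h2 := h.w_pos y
  rw [div_le_div_iff₀ (by positivity) h2]
  linarith

theorem trace_four : ∑ y, (P G D ^ 4) y y = frob G D 2 := by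
  refine Finset.sum_congr rfl fun y _ => ?_
  have := diag_add (G := G) (D := D) 2 2 y
  rw [show (2 + 2 : ℕ) = 4 from rfl] at this
  rw [this]
  unfold colSq
  exact Finset.sum_congr rfl fun x _ => (sq _).symm

theorem sum_diag_div_le (h : WG G w D c) {j : ℕ} (hj : 2 ≤ j) :
    ∑ x, (P G D ^ j) x x / w x ≤ frob G D 2 / c := by
  have hD := h.D_pos
  have hc := h.c_pos
  rw [← trace_four, Finset.sum_div]
  refine Finset.sum_le_sum fun x _ => ?_
  have hw := h.w_pos x
  have h1 : (P G D ^ j) x x ≤ (G.degree x : ℝ) / D ^ 2 := diag_le h hj x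
  have h2 : ((G.degree x : ℝ) / D ^ 2) ^ 2 ≤ (P G D ^ 4) x x := by
    have h3 := diag_add (G := G) (D := D) 2 2 x
    rw [show (2 + 2 : ℕ) = 4 from rfl] at h3
    rw [h3, ← sq_diag]
    have h4 : (P G D ^ 2) x x * (P G D ^ 2) x x ≤ ∑ y, (P G D ^ 2) y x * (P G D ^ 2) y x :=
      Finset.single_le_sum (f := fun y => (P G D ^ 2) y x * (P G D ^ 2) y x)
        (fun y _ => mul_self_nonneg _) (Finset.mem_univ x)
    rw [sq]
    exact h4
  have h5 : c / w x ≤ (G.degree x : ℝ) / D ^ 2 := by
    rw [div_le_div_iff₀ hw (by positivity)]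
    exact h.le_deg x
  calc (P G D ^ j) x x / w x ≤ ((G.degree x : ℝ) / D ^ 2) / w x := by gcongr
    _ = (((G.degree x : ℝ) / D ^ 2) * (c / w x)) / c := by field_simp
    _ ≤ (((G.degree x : ℝ) / D ^ 2) * ((G.degree x : ℝ) / D ^ 2)) / c := by gcongr
    _ ≤ (P G D ^ 4) x x / c := by
      rw [← sq]
      gcongr

theorem sum_adj_le (h : WG G w D c) {j : ℕ} (hj : 2 ≤ j) :
    ∑ y, (P G D ^ (j + 1)) y y ≤ √(∑ x, 1 / w x) * √(frob G D 2) := by
  obtain ⟨i, rfl⟩ : ∃ i, j = i + 2 := ⟨j - 2, by omega⟩
  have h1 := sum_diag_le_sqrt (G := G) (D := D) (i + 1) 2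
  rw [show i + 2 + 1 = (i + 1) + 2 by ring]
  refine h1.trans ?_
  gcongr
  exact (frob_anti h (by omega)).trans (frob_one_le h)

end Pool.Agent.H697.Forest
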