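import Pool.Agent.H697.Forest.Tree

/-!
# Forests as induced subgraphs of parent trees
-/

set_option linter.unusedSectionVars false

namespace Pool.Agent.H697.Forest

open Finset

/-- A finite nonempty forest has a vertex with at most one neighbour. -/
theorem exists_leaf {α : Type} [Finite α] [Nonempty α] (H : SimpleGraph α) (h : H.IsAcyclic) :
    ∃ v, ∀ a b, H.Adj v a → H.Adj v b → a = b := by
  classical
  have := Fintype.ofFinite α
  obtain ⟨v0⟩ := ‹Nonempty α›
  set C := H.connectedComponentMk v0 with hC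
  have ht : C.toSimpleGraph.IsTree := h.isTree_connectedComponent C
  have hmem : v0 ∈ C.supp := by simp [hC]
  have nb : ∀ v ∈ C.supp, ∀ a, H.Adj v a → a ∈ C.supp := by
    intro v hv a ha
    rw [SimpleGraph.ConnectedComponent.mem_supp_iff] at hv ⊢
    rw [← hv]
    exact SimpleGraph.ConnectedComponent.sound ha.symm.reachable
  by_cases hn : ∃ a, H.Adj v0 a
  · obtain ⟨a, ha⟩ := hn
    have hnt : Nontrivial C := by
      refine ⟨⟨⟨v0, hmem⟩, ⟨a, nb v0 hmem a ha⟩, ?_⟩⟩
      intro h2
      exact ha.ne (congrArg Subtype.val h2)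
    obtain ⟨v, hv⟩ := ht.exists_vert_degree_one_of_nontrivial
    obtain ⟨u, hu, huniq⟩ := SimpleGraph.degree_eq_one_iff_existsUnique_adj.1 hv
    refine ⟨v.1, fun a b ha hb => ?_⟩
    have h1 := huniq ⟨a, nb v.1 v.2 a ha⟩ ha
    have h2 := huniq ⟨b, nb v.1 v.2 b hb⟩ hb
    exact congrArg Subtype.val (h1.trans h2.symm)
  · push Not at hn
    exact ⟨v0, fun a _ ha => absurd ha (hn a)⟩

/-- The vertices of a finite forest can be listed so that each has at most one earlier
neighbour. -/
theorem exists_order (n : ℕ) : ∀ (α : Type) [Fintype α] (H : SimpleGraph α), H.IsAcyclic →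
    Fintype.card α = n →
    ∃ e : Fin n ≃ α, ∀ i i' j : Fin n, i < j → i' < j → H.Adj (e i) (e j) →
      H.Adj (e i') (e j) → i = i' := by
  classical
  induction n with
  | zero =>
    intro α _ H _ hcard
    have : IsEmpty α := Fintype.card_eq_zero_iff.1 hcard
    exact ⟨Equiv.equivOfIsEmpty _ _, fun i => i.elim0⟩
  | succ n ih =>
    intro α _ H hH hcard
    have : Nonempty α := Fintype.card_pos_iff.1 (by omega)
    obtain ⟨v, hv⟩ := exists_leaf H hH
    have hc' : Fintype.card {x // x ≠ v} = n := by
      have h1 := Fintype.card_subtype_compl (fun x => x = v)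
      rw [Fintype.card_subtype_eq] at h1
      change Fintype.card {x // ¬ x = v} = n
      omega
    obtain ⟨e', he'⟩ := ih {x // x ≠ v} (H.comap Subtype.val)
      (hH.comap ⟨Subtype.val, fun h => h⟩ Subtype.val_injective) hc'
    let e : Fin (n + 1) ≃ α :=
      finSuccEquivLast.trans ((Equiv.optionCongr e').trans (Equiv.optionSubtypeNe v))
    have e1 : ∀ i : Fin n, e i.castSucc = (e' i).1 := by
      intro i
      simp [e]
    have e2 : e (Fin.last n) = v := by
      simp [e]
    refine ⟨e, fun i i' j hij hij' h1 h2 => ?_⟩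
    obtain ⟨i0, rfl⟩ : ∃ i0 : Fin n, i = i0.castSucc := by
      have : (i : ℕ) < n := by
        have := j.2
        have hh : (i : ℕ) < j := hij
        omega
      exact ⟨⟨i, this⟩, rfl⟩
    obtain ⟨i1, rfl⟩ : ∃ i1 : Fin n, i' = i1.castSucc := by
      have : (i' : ℕ) < n := by
        have := j.2
        have hh : (i' : ℕ) < j := hij'
        omega
      exact ⟨⟨i', this⟩, rfl⟩
    rcases Fin.eq_castSucc_or_eq_last j with ⟨j0, rfl⟩ | rfl
    · rw [e1, e1] at h1 h2
      have := he' i0 i1 j0 (by exact_mod_cast hij) (by exact_mod_cast hij') h1 h2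
      rw [this]
    · rw [e1, e2] at h1 h2
      have := hv _ _ h1.symm h2.symm
      have h3 : e' i0 = e' i1 := Subtype.ext this
      rw [e'.injective h3]

open Classical in
/-- A finite forest is an induced subgraph of a parent tree with one more vertex. -/
theorem exists_parent {α : Type} [Fintype α] (H : SimpleGraph α) (hH : H.IsAcyclic) :
    ∃ (e : Fin (Fintype.card α) ≃ α) (p : ℕ → ℕ), (∀ j, p (j + 1) ≤ j) ∧
      ∀ i j : Fin (Fintype.card α), H.Adj (e i) (e j) ↔ TAdj p (i + 1) (j + 1) := by
  obtain ⟨e, he⟩ := exists_order _ α H hH rfl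
  let q : ℕ → ℕ → Prop := fun j i => ∃ (hj : j < Fintype.card α) (hi : i < j),
    H.Adj (e ⟨i, hi.trans hj⟩) (e ⟨j, hj⟩)
  let p : ℕ → ℕ := fun j => match j with
    | 0 => 0
    | j + 1 => if h : ∃ i, q j i then h.choose + 1 else 0
  have key : ∀ i j : Fin (Fintype.card α), i < j → (H.Adj (e i) (e j) ↔ (i : ℕ) + 1 = p (j + 1)) := by
    intro i j hij
    have hpj : p (j + 1) = if h : ∃ i, q j i then h.choose + 1 else 0 := rfl
    constructor
    · intro hadj
      have hex : ∃ i, q j i := ⟨i, j.2, hij, hadj⟩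
      rw [hpj, dif_pos hex]
      obtain ⟨h1, h2, h3⟩ := hex.choose_spec
      have := he i ⟨hex.choose, h2.trans h1⟩ j hij h2 hadj h3
      have h4 := congrArg Fin.val this
      simpa using h4
    · intro heq
      rw [hpj] at heq
      split_ifs at heq with hex
      obtain ⟨h1, h2, h3⟩ := hex.choose_spec
      have h5 : (i : ℕ) = hex.choose := by omega
      have h6 : i = ⟨hex.choose, h2.trans h1⟩ := Fin.ext h5
      rw [h6]
      exact h3
  have hp : ∀ j, p (j + 1) ≤ j := by
    intro j
    have hpj : p (j + 1) = if h : ∃ i, q j i then h.choose + 1 else 0 := rfl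
    rw [hpj]
    split_ifs with hex
    · obtain ⟨h1, h2, h3⟩ := hex.choose_spec
      exact h2
    · exact Nat.zero_le _
  refine ⟨e, p, hp, fun i j => ?_⟩
  unfold TAdj
  have hpi := hp i
  have hpj := hp j
  rcases lt_trichotomy i j with hij | rfl | hij
  · rw [key i j hij]
    have : (i : ℕ) < j := hij
    omega
  · constructor
    · intro h
      exact absurd h (H.loopless.irrefl _)
    · intro h
      omega
  · rw [H.adj_comm, key j i hij]
    have : (j : ℕ) < i := hij
    omega

/-- **Induced forests**: a weighted almost regular graph with few closed walks of length four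
contains every small forest as an induced subgraph. -/
theorem exists_forest {α : Type} [Fintype α] (H : SimpleGraph α) (hH : H.IsAcyclic)
    {V : Type*} [Fintype V] [DecidableEq V] [Nonempty V] {G : SimpleGraph V}
    [DecidableRel G.Adj] {w : V → ℝ} {D c κ : ℝ} (h : WG G w D c)
    (hκ : 0 ≤ κ) (hQ : frob G D 2 ≤ κ * ∑ x, 1 / w x)
    (hsmall : (Fintype.card α + 1) ^ 2 * (√κ + κ / c) < c ^ Fintype.card α) :
    Nonempty (H ↪g G) := by
  obtain ⟨e, p, hp, he⟩ := exists_parent H hH
  obtain ⟨f, hf1, hf2⟩ := exists_tree h hp (Fintype.card α) hκ hQ (by exact_mod_cast hsmall)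
  refine ⟨⟨⟨fun a => f ((e.symm a : ℕ) + 1), fun a b hab => ?_⟩, fun {a b} => ?_⟩⟩
  · have ha := (e.symm a).2
    have hb := (e.symm b).2
    have h1 := hf1 _ (by omega) _ (by omega) hab
    exact e.symm.injective (Fin.ext (by omega))
  · have ha := (e.symm a).2
    have hb := (e.symm b).2
    change G.Adj (f _) (f _) ↔ H.Adj a b
    rw [hf2 _ (by omega) _ (by omega), ← he]
    simp

end Pool.Agent.H697.Forest
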