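import Pool.Agent.H697.Forest.Embed

/-!
# Random homomorphisms of trees
-/

set_option linter.unusedSectionVars false

namespace Pool.Agent.H697.Forest

open Finset

variable {V : Type*} [Fintype V] [DecidableEq V]
variable (G : SimpleGraph V) [DecidableRel G.Adj] (w : V → ℝ) {D c : ℝ} (p : ℕ → ℕ)

/-- The weighted sum of `φ` over the homomorphisms of the tree on `0, ..., k` to `G`. -/
noncomputable def E : ℕ → ((ℕ → V) → ℝ) → ℝ
  | 0, φ => ∑ x, (1 / w x) * φ (fun _ => x)
  | k + 1, φ => E k fun f => ∑ z, (if G.Adj (f (p (k + 1))) z then 1 / w z else 0) *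
      φ (Function.update f (k + 1) z)

variable {G w p}

theorem E_mono (hw : ∀ x, 0 < w x) (k : ℕ) {φ ψ : (ℕ → V) → ℝ} (h : ∀ f, φ f ≤ ψ f) :
    E G w p k φ ≤ E G w p k ψ := by
  induction k generalizing φ ψ with
  | zero =>
    refine Finset.sum_le_sum fun x _ => ?_
    have := hw x
    gcongr
    exact h _
  | succ k ih =>
    refine ih fun f => Finset.sum_le_sum fun z _ => ?_
    refine mul_le_mul_of_nonneg_left (h _) ?_
    have := hw z
    split_ifs <;> positivity

theorem E_add (k : ℕ) (φ ψ : (ℕ → V) → ℝ) :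
    E G w p k (fun f => φ f + ψ f) = E G w p k φ + E G w p k ψ := by
  induction k generalizing φ ψ with
  | zero => simp only [E, mul_add, Finset.sum_add_distrib]
  | succ k ih => simp only [E, mul_add, Finset.sum_add_distrib, ih]

theorem E_smul (k : ℕ) (a : ℝ) (φ : (ℕ → V) → ℝ) :
    E G w p k (fun f => a * φ f) = a * E G w p k φ := by
  induction k generalizing φ with
  | zero => simp only [E, Finset.mul_sum]; exact Finset.sum_congr rfl fun _ _ => by ring
  | succ k ih =>
    simp only [E]
    rw [← ih]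
    congr 1
    funext f
    rw [Finset.mul_sum]
    exact Finset.sum_congr rfl fun _ _ => by ring

theorem E_sub (k : ℕ) (φ ψ : (ℕ → V) → ℝ) :
    E G w p k (fun f => φ f - ψ f) = E G w p k φ - E G w p k ψ := by
  have h := E_smul (G := G) (w := w) (p := p) k (-1) ψ
  have h2 := E_add (G := G) (w := w) (p := p) k φ (fun f => -1 * ψ f)
  rw [h] at h2
  rw [show (fun f => φ f - ψ f) = fun f => φ f + -1 * ψ f from by funext f; ring, h2]
  ring

theorem E_zero (k : ℕ) : E G w p k (fun _ => 0) = 0 := by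
  have h := E_smul (G := G) (w := w) (p := p) k 0 (fun _ => 0)
  simpa using h

theorem E_sum {ι : Type*} (s : Finset ι) (k : ℕ) (φ : ι → (ℕ → V) → ℝ) :
    E G w p k (fun f => ∑ i ∈ s, φ i f) = ∑ i ∈ s, E G w p k (φ i) := by
  classical
  induction s using Finset.induction_on with
  | empty => simpa using E_zero k
  | insert a s ha ih =>
    simp only [Finset.sum_insert ha]
    rw [E_add, ih]

/-- If the sum is positive, some homomorphism has a positive value. -/
theorem exists_of_E_pos (hw : ∀ x, 0 < w x) (hp : ∀ j, p (j + 1) ≤ j) (k : ℕ)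
    {φ : (ℕ → V) → ℝ} (h : 0 < E G w p k φ) :
    ∃ f : ℕ → V, (∀ j, j < k → G.Adj (f (p (j + 1))) (f (j + 1))) ∧ 0 < φ f := by
  induction k generalizing φ with
  | zero =>
    obtain ⟨x, -, hx⟩ := Finset.exists_lt_of_sum_lt (s := univ) (f := fun _ : V => (0 : ℝ))
      (g := fun x => (1 / w x) * φ (fun _ => x)) (by rw [Finset.sum_const_zero]; exact h)
    refine ⟨fun _ => x, fun j hj => absurd hj (by omega), ?_⟩
    have := hw x
    exact (pos_iff_pos_of_mul_pos hx).1 (by positivity)
  | succ k ih =>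
    obtain ⟨f, hf, hφ⟩ := ih h
    obtain ⟨z, -, hz⟩ := Finset.exists_lt_of_sum_lt (s := univ) (f := fun _ : V => (0 : ℝ))
      (g := fun z => (if G.Adj (f (p (k + 1))) z then 1 / w z else 0) *
        φ (Function.update f (k + 1) z)) (by rw [Finset.sum_const_zero]; exact hφ)
    have hadj : G.Adj (f (p (k + 1))) z := by
      by_contra hn
      simp [hn] at hz
    refine ⟨Function.update f (k + 1) z, fun j hj => ?_, ?_⟩
    · have hpj := hp j
      rcases Nat.lt_succ_iff_lt_or_eq.1 hj with hj | rfl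
      · rw [Function.update_of_ne (by omega), Function.update_of_ne (by omega)]
        exact hf j hj
      · rw [Function.update_of_ne (by omega), Function.update_self]
        exact hadj
    · have := hw z
      rw [if_pos hadj] at hz
      exact (pos_iff_pos_of_mul_pos hz).1 (by positivity)

/-- The weight of the possible extensions. -/
theorem sum_ext_eq (x : V) (h : WG G w D c) :
    ∑ z, (if G.Adj x z then 1 / w z else 0) = (G.degree x : ℝ) * w x / D ^ 2 := by
  have hx := h.w_pos x
  have hD := h.D_pos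
  have h1 : ∑ z, (if G.Adj x z then 1 / w z else 0) =
      ∑ z, (if G.Adj x z then w x / D ^ 2 else 0) := by
    refine Finset.sum_congr rfl fun z _ => ?_
    split_ifs with hxz
    · have h2 := h.w_adj x z hxz
      have hz := h.w_pos z
      rw [← h2]
      field_simp
    · rfl
  rw [h1, ← Finset.sum_filter, Finset.sum_const, nsmul_eq_mul,
    ← SimpleGraph.card_neighborFinset_eq_degree, mul_div_assoc]
  congr 3
  ext z
  simp

theorem sum_ext_le (x : V) (h : WG G w D c) :
    ∑ z, (if G.Adj x z then 1 / w z else 0) ≤ 1 := by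
  have hD := h.D_pos
  rw [sum_ext_eq x h, div_le_one (by positivity)]
  exact h.deg_le x

theorem le_sum_ext (x : V) (h : WG G w D c) :
    c ≤ ∑ z, (if G.Adj x z then 1 / w z else 0) := by
  have hD := h.D_pos
  rw [sum_ext_eq x h, le_div_iff₀ (by positivity)]
  exact h.le_deg x

theorem le_E_one (h : WG G w D c) (k : ℕ) :
    c ^ k * ∑ x, 1 / w x ≤ E G w p k (fun _ => 1) := by
  induction k with
  | zero => simp [E]
  | succ k ih =>
    have h1 : E G w p k (fun _ => c * 1) ≤ E G w p (k + 1) (fun _ => 1) := by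
      refine E_mono h.w_pos k fun f => ?_
      simpa using le_sum_ext (f (p (k + 1))) h
    rw [E_smul] at h1
    have hc := h.c_pos
    calc c ^ (k + 1) * ∑ x, 1 / w x = c * (c ^ k * ∑ x, 1 / w x) := by ring
      _ ≤ c * E G w p k (fun _ => 1) := by gcongr
      _ ≤ _ := h1

/-- The joint weight of the images of `s` and `t` is bounded by the `j`-step kernel. -/
def Ker (G : SimpleGraph V) [DecidableRel G.Adj] (w : V → ℝ) (D : ℝ) (p : ℕ → ℕ)
    (k s t j : ℕ) : Prop :=
  ∀ ψ : V → V → ℝ, (∀ x y, 0 ≤ ψ x y) →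
    E G w p k (fun f => ψ (f s) (f t)) ≤
      ∑ x, ∑ y, ((P G D ^ j) x y / (√(w x) * √(w y))) * ψ x y

theorem Ker.symm {k s t j : ℕ} (h : Ker G w D p k s t j) : Ker G w D p k t s j := by
  intro ψ hψ
  refine (h (fun x y => ψ y x) fun x y => hψ y x).trans (le_of_eq ?_)
  rw [Finset.sum_comm]
  refine Finset.sum_congr rfl fun x _ => Finset.sum_congr rfl fun y _ => ?_
  rw [P_pow_symm G D j x y, mul_comm (√(w x))]

theorem Ker.step (h : WG G w D c) {k s t j : ℕ} (hs : s ≤ k) (ht : t ≤ k)
    (hk : Ker G w D p k s t j) : Ker G w D p (k + 1) s t j := by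
  intro ψ hψ
  refine le_trans ?_ (hk ψ hψ)
  refine E_mono h.w_pos k fun f => ?_
  simp only [Function.update_of_ne (show s ≠ k + 1 by omega),
    Function.update_of_ne (show t ≠ k + 1 by omega)]
  rw [← Finset.sum_mul]
  exact mul_le_of_le_one_left (hψ _ _) (sum_ext_le _ h)

theorem Ker.new (h : WG G w D c) (hp : ∀ j, p (j + 1) ≤ j) {k s j : ℕ} (hs : s ≤ k)
    (hk : Ker G w D p k s (p (k + 1)) j) : Ker G w D p (k + 1) s (k + 1) (j + 1) := by
  intro ψ hψ
  have hD := h.D_pos
  have hpk := hp k
  have h1 : E G w p (k + 1) (fun f => ψ (f s) (f (k + 1))) =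
      E G w p k (fun f => (fun x y => ∑ z, (if G.Adj y z then 1 / w z else 0) * ψ x z)
        (f s) (f (p (k + 1)))) := by
    change E G w p k _ = _
    congr 1
    funext f
    simp only [Function.update_of_ne (show s ≠ k + 1 by omega), Function.update_self]
  rw [h1]
  refine (hk (fun x y => ∑ z, (if G.Adj y z then 1 / w z else 0) * ψ x z)
    fun x y => Finset.sum_nonneg fun z _ => mul_nonneg ?_ (hψ x z)).trans (le_of_eq ?_)
  · have := h.w_pos z
    split_ifs <;> positivity
  · refine Finset.sum_congr rfl fun x _ => ?_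
    simp_rw [Finset.mul_sum]
    rw [Finset.sum_comm]
    refine Finset.sum_congr rfl fun z _ => ?_
    rw [pow_succ, Matrix.mul_apply, Finset.sum_div, Finset.sum_mul]
    refine Finset.sum_congr rfl fun y _ => ?_
    unfold P
    split_ifs with hyz
    · have hx := h.w_pos x
      have hy := h.w_pos y
      have hz := h.w_pos z
      have h2 := h.w_adj y z hyz
      have h3 : √(w y) * √(w z) = D := by
        rw [← Real.sqrt_mul hy.le, h2, Real.sqrt_sq hD.le]
      have h4 : √(w z) * √(w z) = w z := Real.mul_self_sqrt hz.le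
      have hsy : 0 < √(w y) := Real.sqrt_pos.2 hy
      have hsz : 0 < √(w z) := Real.sqrt_pos.2 hz
      have hsx : 0 < √(w x) := Real.sqrt_pos.2 hx
      rw [← h3]
      nth_rewrite 2 [← h4]
      field_simp
    · simp

theorem Ker.diag (h : WG G w D c) {k : ℕ}
    (hk : Ker G w D p k (p (k + 1)) (p (k + 1)) 0) :
    Ker G w D p (k + 1) (k + 1) (k + 1) 0 := by
  intro ψ hψ
  have hD := h.D_pos
  have h1 : E G w p (k + 1) (fun f => ψ (f (k + 1)) (f (k + 1))) =
      E G w p k (fun f => (fun x y => ∑ z, (if G.Adj y z then 1 / w z else 0) * ψ z z)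
        (f (p (k + 1))) (f (p (k + 1)))) := by
    change E G w p k _ = _
    congr 1
    funext f
    simp only [Function.update_self]
  rw [h1]
  refine (hk (fun x y => ∑ z, (if G.Adj y z then 1 / w z else 0) * ψ z z)
    fun x y => Finset.sum_nonneg fun z _ => mul_nonneg ?_ (hψ z z)).trans ?_
  · have := h.w_pos z
    split_ifs <;> positivity
  · have h2 : ∀ (F : V → V → ℝ), ∑ x, ∑ y, ((P G D ^ 0) x y / (√(w x) * √(w y))) * F x y =
        ∑ x, (1 / w x) * F x x := by
      intro F
      refine Finset.sum_congr rfl fun x _ => ?_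
      rw [Finset.sum_eq_single x]
      · rw [pow_zero, Matrix.one_apply_eq, Real.mul_self_sqrt (h.w_pos x).le]
      · intro y _ hyx
        rw [pow_zero, Matrix.one_apply_ne (Ne.symm hyx)]
        simp
      · simp
    rw [h2, h2]
    simp_rw [Finset.mul_sum]
    rw [Finset.sum_comm]
    refine Finset.sum_le_sum fun z _ => ?_
    have hz := h.w_pos z
    calc ∑ x, 1 / w x * ((if G.Adj x z then 1 / w z else 0) * ψ z z)
        = ((1 / w z) * ψ z z) * ∑ x, (if G.Adj z x then 1 / w x else 0) := by
          rw [Finset.mul_sum]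
          refine Finset.sum_congr rfl fun x _ => ?_
          simp only [G.adj_comm x z]
          split_ifs
          · ring
          · simp
      _ ≤ ((1 / w z) * ψ z z) * 1 := by
          refine mul_le_mul_of_nonneg_left (sum_ext_le z h) ?_
          have := hψ z z
          positivity
      _ = _ := mul_one _

/-- For all `s, t ≤ k` the joint weight is bounded by the kernel of the tree distance. -/
theorem exists_Ker (h : WG G w D c) (hp : ∀ j, p (j + 1) ≤ j) (k : ℕ) :
    ∀ s ≤ k, ∀ t ≤ k, ∃ j, Ker G w D p k s t j ∧ (j = 0 ↔ s = t) ∧ (j = 1 ↔ TAdj p s t) := by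
  induction k with
  | zero =>
    intro s hs t ht
    obtain rfl : s = 0 := by omega
    obtain rfl : t = 0 := by omega
    refine ⟨0, ?_, by simp, ?_⟩
    · intro ψ hψ
      refine le_of_eq (Finset.sum_congr rfl fun x _ => ?_)
      rw [Finset.sum_eq_single x]
      · rw [pow_zero, Matrix.one_apply_eq, Real.mul_self_sqrt (h.w_pos x).le]
      · intro y _ hyx
        rw [pow_zero, Matrix.one_apply_ne (Ne.symm hyx)]
        simp
      · simp
    · simp [TAdj]
  | succ k ih =>
    have hpk := hp k
    have key : ∀ s ≤ k, ∃ j, Ker G w D p (k + 1) s (k + 1) j ∧ (j = 0 ↔ s = k + 1) ∧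
        (j = 1 ↔ TAdj p s (k + 1)) := by
      intro s hs
      obtain ⟨j, h1, h2, h3⟩ := ih s hs (p (k + 1)) hpk
      refine ⟨j + 1, h1.new h hp hs, by omega, ?_⟩
      have h4 : TAdj p s (k + 1) ↔ s = p (k + 1) := by
        unfold TAdj
        constructor
        · rintro (⟨-, h⟩ | ⟨h5, h6⟩)
          · exact h
          · exfalso
            obtain ⟨s', rfl⟩ : ∃ s', s = s' + 1 := ⟨s - 1, by omega⟩
            have := hp s'
            omega
        · intro h
          exact Or.inl ⟨by omega, h⟩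
      rw [h4, ← h2]
      omega
    intro s hs t ht
    rcases Nat.lt_or_ge k s with hs' | hs' <;> rcases Nat.lt_or_ge k t with ht' | ht'
    · obtain rfl : s = k + 1 := by omega
      obtain rfl : t = k + 1 := by omega
      obtain ⟨j, h1, h2, h3⟩ := ih (p (k + 1)) hpk (p (k + 1)) hpk
      obtain rfl : j = 0 := h2.2 rfl
      refine ⟨0, h1.diag h, by simp, ?_⟩
      unfold TAdj
      omega
    · obtain rfl : s = k + 1 := by omega
      obtain ⟨j, h1, h2, h3⟩ := key t ht'
      exact ⟨j, h1.symm, by rw [h2]; exact eq_comm, by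
        rw [h3]; exact ⟨TAdj.symm, TAdj.symm⟩⟩
    · obtain rfl : t = k + 1 := by omega
      exact key s hs'
    · obtain ⟨j, h1, h2, h3⟩ := ih s hs' t ht'
      exact ⟨j, h1.step h hs' ht', h2, h3⟩

open Classical in
/-- The badness of a pair. -/
noncomputable def bad (G : SimpleGraph V) (x y : V) : ℝ :=
  (if G.Adj x y then 1 else 0) + (if x = y then 1 else 0)

theorem bad_nonneg (x y : V) : 0 ≤ bad G x y := by
  unfold bad
  split_ifs <;> norm_num

theorem E_bad_le (h : WG G w D c) (hp : ∀ j, p (j + 1) ≤ j) {k s t : ℕ} (hs : s ≤ k) (ht : t ≤ k)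
    (hst : s ≠ t) (hadj : ¬ TAdj p s t) :
    E G w p k (fun f => bad G (f s) (f t)) ≤
      √(∑ x, 1 / w x) * √(frob G D 2) + frob G D 2 / c := by
  obtain ⟨j, h1, h2, h3⟩ := exists_Ker h hp k s hs t ht
  have hj : 2 ≤ j := by
    rcases Nat.lt_or_ge j 2 with hj | hj
    · exfalso
      interval_cases j
      · exact hst (h2.1 rfl)
      · exact hadj (h3.1 rfl)
    · exact hj
  have hD := h.D_pos
  refine (h1 _ bad_nonneg).trans ?_
  have h4 : ∑ x, ∑ y, ((P G D ^ j) x y / (√(w x) * √(w y))) * bad G x y =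
      ∑ x, ∑ y, ((P G D ^ j) x y * P G D x y) + ∑ x, (P G D ^ j) x x / w x := by
    rw [← Finset.sum_add_distrib]
    refine Finset.sum_congr rfl fun x _ => ?_
    have hx := h.w_pos x
    unfold bad
    simp_rw [mul_add]
    rw [Finset.sum_add_distrib]
    congr 1
    · refine Finset.sum_congr rfl fun y _ => ?_
      unfold P
      by_cases hxy : G.Adj x y
      · have h5 : √(w x) * √(w y) = D := by
          rw [← Real.sqrt_mul hx.le, h.w_adj x y hxy, Real.sqrt_sq hD.le]
        simp only [hxy, if_true, mul_one, h5]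
        rw [mul_one_div]
      · simp [hxy]
    · rw [Finset.sum_eq_single x]
      · rw [Real.mul_self_sqrt hx.le]
        simp
      · intro y _ hyx
        simp [Ne.symm hyx]
      · simp
  rw [h4]
  refine add_le_add ?_ (sum_diag_div_le h hj)
  refine le_trans (le_of_eq ?_) (sum_adj_le h hj)
  refine Finset.sum_congr rfl fun x _ => ?_
  rw [pow_succ, Matrix.mul_apply]
  exact Finset.sum_congr rfl fun y _ => by rw [P_symm G D x y]

/-- **Induced trees.** -/
theorem exists_tree [Nonempty V] (h : WG G w D c) (hp : ∀ j, p (j + 1) ≤ j) (k : ℕ) {κ : ℝ}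
    (hκ : 0 ≤ κ) (hQ : frob G D 2 ≤ κ * ∑ x, 1 / w x)
    (hsmall : (k + 1) ^ 2 * (√κ + κ / c) < c ^ k) :
    ∃ f : ℕ → V, (∀ s ≤ k, ∀ t ≤ k, f s = f t → s = t) ∧
      ∀ s ≤ k, ∀ t ≤ k, (G.Adj (f s) (f t) ↔ TAdj p s t) := by
  classical
  have hD := h.D_pos
  have hc := h.c_pos
  set Z := ∑ x, 1 / w x with hZ
  have hZpos : 0 < Z := Finset.sum_pos (fun x _ => by have := h.w_pos x; positivity)
    Finset.univ_nonempty
  set S := ((range (k + 1)) ×ˢ (range (k + 1))).filter
    (fun q : ℕ × ℕ => q.1 ≠ q.2 ∧ ¬ TAdj p q.1 q.2) with hS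
  have hcard : (S.card : ℝ) ≤ (k + 1) ^ 2 := by
    have : S.card ≤ (k + 1) * (k + 1) := by
      refine (Finset.card_filter_le _ _).trans ?_
      rw [Finset.card_product, Finset.card_range]
    calc (S.card : ℝ) ≤ ((k + 1) * (k + 1) : ℕ) := by exact_mod_cast this
      _ = (k + 1) ^ 2 := by push_cast; ring
  have hb : ∀ q ∈ S, E G w p k (fun f => bad G (f q.1) (f q.2)) ≤ (√κ + κ / c) * Z := by
    intro q hq
    simp only [hS, Finset.mem_filter, Finset.mem_product, Finset.mem_range] at hq
    refine (E_bad_le h hp (by omega) (by omega) hq.2.1 hq.2.2).trans ?_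
    rw [add_mul]
    refine add_le_add ?_ ?_
    · calc √Z * √(frob G D 2) ≤ √Z * √(κ * Z) := by gcongr
        _ = √κ * (√Z * √Z) := by rw [Real.sqrt_mul hκ]; ring
        _ = √κ * Z := by rw [Real.mul_self_sqrt hZpos.le]
    · calc frob G D 2 / c ≤ κ * Z / c := by gcongr
        _ = κ / c * Z := by ring
  have hpos : 0 < E G w p k (fun f => 1 - ∑ q ∈ S, bad G (f q.1) (f q.2)) := by
    rw [E_sub, E_sum]
    have h1 := le_E_one (p := p) h k
    have h2 : ∑ q ∈ S, E G w p k (fun f => bad G (f q.1) (f q.2)) ≤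
        (k + 1) ^ 2 * ((√κ + κ / c) * Z) := by
      refine (Finset.sum_le_sum hb).trans ?_
      rw [Finset.sum_const, nsmul_eq_mul]
      gcongr
    have h3 : (k + 1) ^ 2 * ((√κ + κ / c) * Z) < c ^ k * Z := by
      rw [← mul_assoc]
      exact mul_lt_mul_of_pos_right hsmall hZpos
    linarith
  obtain ⟨f, hf, hf2⟩ := exists_of_E_pos h.w_pos hp k hpos
  have hgood : ∀ s ≤ k, ∀ t ≤ k, s ≠ t → ¬ TAdj p s t → f s ≠ f t ∧ ¬ G.Adj (f s) (f t) := by
    intro s hs t ht hst hadj
    have hmem : (s, t) ∈ S := by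
      simp only [hS, Finset.mem_filter, Finset.mem_product, Finset.mem_range]
      exact ⟨⟨by omega, by omega⟩, hst, hadj⟩
    have h1 : bad G (f s) (f t) ≤ ∑ q ∈ S, bad G (f q.1) (f q.2) :=
      Finset.single_le_sum (f := fun q : ℕ × ℕ => bad G (f q.1) (f q.2))
        (fun q _ => bad_nonneg _ _) hmem
    have h2 : bad G (f s) (f t) < 1 := by linarith
    unfold bad at h2
    constructor
    · intro h3
      rw [if_pos h3] at h2
      split_ifs at h2 <;> linarith
    · intro h3
      rw [if_pos h3] at h2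
      split_ifs at h2 <;> linarith
  have hadj : ∀ s ≤ k, ∀ t ≤ k, TAdj p s t → G.Adj (f s) (f t) := by
    intro s hs t ht hst
    rcases hst with ⟨h1, h2⟩ | ⟨h1, h2⟩
    · obtain ⟨t', rfl⟩ : ∃ t', t = t' + 1 := ⟨t - 1, by omega⟩
      rw [h2]
      exact hf t' (by omega)
    · obtain ⟨s', rfl⟩ : ∃ s', s = s' + 1 := ⟨s - 1, by omega⟩
      rw [h2]
      exact (hf s' (by omega)).symm
  refine ⟨f, fun s hs t ht heq => ?_, fun s hs t ht => ⟨fun ha => ?_, hadj s hs t ht⟩⟩
  · by_contra hst
    by_cases h1 : TAdj p s t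
    · exact (hadj s hs t ht h1).ne heq
    · exact (hgood s hs t ht hst h1).1 heq
  · by_contra h1
    have hst : s ≠ t := by
      rintro rfl
      exact G.loopless.irrefl _ ha
    exact (hgood s hs t ht hst h1).2 ha

end Pool.Agent.H697.Forest
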